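import Mathlib

set_option autoImplicit false

namespace Pool.Agent.Results.MP_2fa8e1_co.NoSEDF

open Finset

variable {G : Type*} [Group G] [Fintype G] [DecidableEq G]

/-- The multiset `D(A,B) = {x y⁻¹ : x ∈ A, y ∈ B}`. -/
def D (A B : Finset G) : Multiset G :=
  (A ×ˢ B).val.map fun p => p.1 * p.2⁻¹

/-- `IsSEDF n m k lam A`: the family `A` of `m ≥ 2` pairwise disjoint `k`-element subsets (`k ≥ 1`)
of the finite group `G` of order `n` is an `(n,m,k,lam)`-SEDF: for every `i`, the multiset union of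
the `D(A i, A j)`, `j ≠ i`, contains every element of `G` other than the identity exactly `lam`
times. -/
def IsSEDF (n m k lam : ℕ) (A : Fin m → Finset G) : Prop :=
  Fintype.card G = n ∧ 2 ≤ m ∧ 1 ≤ k ∧ (∀ i, (A i).card = k) ∧
    (∀ i j, i ≠ j → Disjoint (A i) (A j)) ∧
    ∀ i, ∀ g : G, g ≠ 1 →
      (∑ j ∈ Finset.univ.erase i, D (A i) (A j)).count g = lam

/-- The convolution matrix of a subset. -/
def M (X : Finset G) : Matrix G G ℚ := Matrix.of fun g h => if g⁻¹ * h ∈ X then 1 else 0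

/-- number of representations `g = x z`. -/
def rep (X Z : Finset G) (g : G) : ℕ := (X.filter fun x => x⁻¹ * g ∈ Z).card

lemma M_mul (X Z : Finset G) (g h : G) : (M X * M Z) g h = (rep X Z (g⁻¹ * h) : ℚ) := by
  rw [Matrix.mul_apply]
  simp only [M, Matrix.of_apply]
  have h1 : ∀ t : G, ((if g⁻¹ * t ∈ X then (1 : ℚ) else 0) * (if t⁻¹ * h ∈ Z then 1 else 0))
      = if (g⁻¹ * t ∈ X ∧ (g⁻¹ * t)⁻¹ * (g⁻¹ * h) ∈ Z) then 1 else 0 := by
    intro t
    have : (g⁻¹ * t)⁻¹ * (g⁻¹ * h) = t⁻¹ * h := by group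
    rw [this]
    by_cases a : g⁻¹ * t ∈ X <;> by_cases b : t⁻¹ * h ∈ Z <;> simp [a, b]
  simp_rw [h1]
  rw [← Equiv.sum_comp (Equiv.mulLeft g)]
  simp only [Equiv.coe_mulLeft, inv_mul_cancel_left]
  rw [Finset.sum_boole]
  unfold rep
  congr 1
  congr 1
  ext x
  simp

/-- If every non-identity element is uniquely a product `x z` and the identity is not one, then the
same holds for the products `z x`. -/
lemma rep_comm (X Z : Finset G) (hG : 2 ≤ Fintype.card G)
    (h1 : rep X Z 1 = 0) (h : ∀ g : G, g ≠ 1 → rep X Z g = 1) :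
    ∀ g : G, g ≠ 1 → rep Z X g = 1 := by
  classical
  set n : ℚ := (Fintype.card G : ℚ) with hn
  have hn2 : (2 : ℚ) ≤ n := by rw [hn]; exact_mod_cast hG
  -- J matrix
  obtain ⟨J, hJ⟩ : ∃ J : Matrix G G ℚ, ∀ a b, J a b = 1 := ⟨Matrix.of fun _ _ => 1, fun _ _ => rfl⟩
  have hJJ : J * J = n • J := by
    ext a b
    simp [hJ, Matrix.mul_apply, hn]
  have hXZ : M X * M Z = J - 1 := by
    ext a b
    rw [M_mul, Matrix.sub_apply, hJ]
    by_cases hab : a = b
    · subst hab
      simp [h1]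
    · have : a⁻¹ * b ≠ 1 := by
        intro h'
        exact hab (inv_mul_eq_one.mp h')
      rw [h _ this]
      simp [Matrix.one_apply_ne hab]
  have hMJ : ∀ Y : Finset G, M Y * J = (Y.card : ℚ) • J := by
    intro Y
    ext a b
    simp only [Matrix.mul_apply, M, Matrix.of_apply, hJ, mul_one, Matrix.smul_apply, smul_eq_mul]
    rw [← Equiv.sum_comp (Equiv.mulLeft a)]
    simp
  have hJM : ∀ Y : Finset G, J * M Y = (Y.card : ℚ) • J := by
    intro Y
    ext a b
    simp only [Matrix.mul_apply, M, Matrix.of_apply, hJ, one_mul, Matrix.smul_apply, smul_eq_mul,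
      mul_one]
    have : ∀ t : G, (if t⁻¹ * b ∈ Y then (1:ℚ) else 0) =
        if ((Equiv.inv G).trans (Equiv.mulRight b)) t ∈ Y then 1 else 0 := by
      intro t
      simp
    simp_rw [this]
    rw [Equiv.sum_comp ((Equiv.inv G).trans (Equiv.mulRight b))
      (fun t => if t ∈ Y then (1:ℚ) else 0)]
    simp
  -- inverse of J - 1
  obtain ⟨c, hc⟩ : ∃ c : ℚ, c * n = c + 1 := by
    have hne : n - 1 ≠ 0 := by linarith
    refine ⟨1 / (n - 1), ?_⟩
    field_simp
    ring
  have hinv : (J - 1) * (c • J - 1) = 1 := by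
    rw [sub_mul, mul_sub, one_mul, mul_one, Matrix.mul_smul, hJJ, smul_smul, hc, add_smul, one_smul]
    abel
  have hZX : M Z * M X = J - 1 := by
    have h2 : M X * (M Z * (c • J - 1)) = 1 := by
      rw [← mul_assoc, hXZ, hinv]
    have h3 : (M Z * (c • J - 1)) * M X = 1 := mul_eq_one_comm.mp h2
    have hcomm : (c • J - 1) * M X = M X * (c • J - 1) := by
      rw [mul_sub, sub_mul, Matrix.mul_smul, Matrix.smul_mul, hMJ, hJM, mul_one, one_mul]
    have h4 : M Z * M X * (c • J - 1) = 1 := by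
      rw [mul_assoc, ← hcomm, ← mul_assoc, h3]
    have h5 : (c • J - 1) * (J - 1) = 1 := mul_eq_one_comm.mp hinv
    calc M Z * M X = M Z * M X * ((c • J - 1) * (J - 1)) := by rw [h5, mul_one]
      _ = (M Z * M X * (c • J - 1)) * (J - 1) := by rw [← mul_assoc]
      _ = J - 1 := by rw [h4, one_mul]
  intro g hg
  have := M_mul Z X 1 g
  rw [hZX, Matrix.sub_apply, hJ, Matrix.one_apply_ne (Ne.symm hg)] at this
  simp only [inv_one, one_mul, sub_zero] at this
  exact_mod_cast this.symm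

lemma rep_eq_one {X Z : Finset G} {g : G} (h : rep X Z g = 1) :
    (∃ x ∈ X, ∃ z ∈ Z, x * z = g) ∧
      ∀ x ∈ X, ∀ z ∈ Z, ∀ x' ∈ X, ∀ z' ∈ Z, x * z = g → x' * z' = g → x = x' := by
  unfold rep at h
  obtain ⟨a, ha⟩ := Finset.card_eq_one.mp h
  have key : ∀ x ∈ X, ∀ z ∈ Z, x * z = g → x = a := by
    intro x hx z hz hxz
    have : x ∈ X.filter fun x => x⁻¹ * g ∈ Z := by
      rw [Finset.mem_filter]
      refine ⟨hx, ?_⟩
      rw [← hxz, inv_mul_cancel_left]
      exact hz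
    rw [ha] at this
    exact Finset.mem_singleton.mp this
  refine ⟨?_, ?_⟩
  · have : a ∈ X.filter fun x => x⁻¹ * g ∈ Z := by rw [ha]; exact Finset.mem_singleton_self a
    rw [Finset.mem_filter] at this
    exact ⟨a, this.1, a⁻¹ * g, this.2, by group⟩
  · intro x hx z hz x' hx' z' hz' h1 h2
    rw [key x hx z hz h1, key x' hx' z' hz' h2]

/-- The core: for a pairwise disjoint family. `U i` is the union of the other sets. -/
lemma core {m : ℕ} (A : Fin m → Finset G) (hm : 3 ≤ m) (hG : 2 ≤ Fintype.card G)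
    (hdisj : ∀ i j, i ≠ j → Disjoint (A i) (A j))
    (hrep : ∀ i, ∀ g : G, g ≠ 1 →
      rep (A i) (((Finset.univ.erase i).biUnion A).image fun y => y⁻¹) g = 1)
    (i : Fin m) : (A i).card ≤ 1 := by
  classical
  set U : Fin m → Finset G := fun i => (Finset.univ.erase i).biUnion A with hU
  have memU : ∀ i x, x ∈ U i ↔ ∃ j, j ≠ i ∧ x ∈ A j := by
    intro i x
    simp [hU]
  have hrep1 : ∀ i, rep (A i) ((U i).image fun y => y⁻¹) 1 = 0 := by
    intro i
    unfold rep
    rw [Finset.card_eq_zero, Finset.filter_eq_empty_iff]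
    intro x hx hx'
    rw [Finset.mem_image] at hx'
    obtain ⟨y, hy, hyx⟩ := hx'
    rw [mul_one] at hyx
    have hyx' : y = x := inv_injective hyx
    subst hyx'
    obtain ⟨j, hj, hyj⟩ := (memU i y).mp hy
    exact (Finset.disjoint_left.mp (hdisj j i hj) hyj) hx
  have hrep' : ∀ i, ∀ g : G, g ≠ 1 → rep ((U i).image fun y => y⁻¹) (A i) g = 1 := by
    intro i
    exact rep_comm _ _ hG (hrep1 i) (hrep i)
  -- two other indices
  by_contra hcard
  have hcard : 1 < (A i).card := by omega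
  obtain ⟨a, ha, a', ha', hne⟩ := Finset.one_lt_card.mp hcard
  have hex : ∃ j l : Fin m, j ≠ i ∧ l ≠ i ∧ j ≠ l := by
    have h3 : 1 < (Finset.univ.erase i : Finset (Fin m)).card := by
      rw [Finset.card_erase_of_mem (Finset.mem_univ i), Finset.card_univ, Fintype.card_fin]
      omega
    obtain ⟨j, hj, l, hl, hjl⟩ := Finset.one_lt_card.mp h3
    exact ⟨j, l, (Finset.mem_erase.mp hj).1, (Finset.mem_erase.mp hl).1, hjl⟩
  obtain ⟨j, l, hji, hli, hjl⟩ := hex
  set d : G := a'⁻¹ * a with hd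
  have hd1 : d ≠ 1 := by
    intro h
    exact hne (inv_mul_eq_one.mp h).symm
  -- claim: for every index j ≠ i, there are x ∈ A j, y ∈ A i with y⁻¹ x = d
  have claim : ∀ j, j ≠ i → ∃ x ∈ A j, ∃ y ∈ A i, y⁻¹ * x = d := by
    intro j hj
    obtain ⟨⟨w, hw, x, hx, hwx⟩, -⟩ := rep_eq_one (hrep' j d hd1)
    rw [Finset.mem_image] at hw
    obtain ⟨y, hy, rfl⟩ := hw
    refine ⟨x, hx, y, ?_, hwx⟩
    obtain ⟨t, ht, hyt⟩ := (memU j y).mp hy
    by_cases hti : t = i
    · rwa [hti] at hyt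
    · exfalso
      -- a' y⁻¹ = a x⁻¹
      have heq : a' * y⁻¹ = a * x⁻¹ := by
        have h1 : y⁻¹ * x = a'⁻¹ * a := hwx
        have h2 : a' * (y⁻¹ * x) * x⁻¹ = a' * (a'⁻¹ * a) * x⁻¹ := by rw [h1]
        have e1 : a' * (y⁻¹ * x) * x⁻¹ = a' * y⁻¹ := by group
        have e2 : a' * (a'⁻¹ * a) * x⁻¹ = a * x⁻¹ := by group
        rw [e1, e2] at h2
        exact h2
      have hyU : y ∈ U i := (memU i y).mpr ⟨t, hti, hyt⟩
      have hxU : x ∈ U i := (memU i x).mpr ⟨j, hj, hx⟩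
      have hg : a' * y⁻¹ ≠ 1 := by
        intro h
        have : a' = y := by
          have := mul_inv_eq_one.mp h
          exact this
        rw [this] at ha'
        exact (Finset.disjoint_left.mp (hdisj t i hti) hyt) ha'
      obtain ⟨-, huniq⟩ := rep_eq_one (hrep i (a' * y⁻¹) hg)
      have := huniq a' ha' y⁻¹ (Finset.mem_image_of_mem _ hyU) a ha x⁻¹
        (Finset.mem_image_of_mem _ hxU) rfl heq.symm
      exact hne this.symm
  obtain ⟨x, hx, y, hy, hxy⟩ := claim j hji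
  obtain ⟨x', hx', y', hy', hxy'⟩ := claim l hli
  have hxU : x ∈ U i := (memU i x).mpr ⟨j, hji, hx⟩
  have hxU' : x' ∈ U i := (memU i x').mpr ⟨l, hli, hx'⟩
  have hdi : d⁻¹ ≠ 1 := by
    intro h
    exact hd1 (inv_eq_one.mp h)
  obtain ⟨-, huniq⟩ := rep_eq_one (hrep' i d⁻¹ hdi)
  have h1 : x⁻¹ * y = d⁻¹ := by rw [← hxy]; group
  have h2 : x'⁻¹ * y' = d⁻¹ := by rw [← hxy']; group
  have := huniq x⁻¹ (Finset.mem_image_of_mem _ hxU) y hy x'⁻¹
    (Finset.mem_image_of_mem _ hxU') y' hy' h1 h2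
  have hxx : x = x' := inv_injective this
  rw [← hxx] at hx'
  exact (Finset.disjoint_left.mp (hdisj j l hjl) hx) hx'

lemma count_D (A B : Finset G) (g : G) :
    (D A B).count g = (A.filter fun x => x⁻¹ * g ∈ B.image fun y => y⁻¹).card := by
  unfold D
  rw [Multiset.count_map]
  have : Multiset.card (Multiset.filter (fun a : G × G => g = a.1 * a.2⁻¹) (A ×ˢ B).val)
      = ((A ×ˢ B).filter fun a => g = a.1 * a.2⁻¹).card := rfl
  rw [this]
  apply Finset.card_bij (fun p _ => p.1)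
  · intro p hp
    rw [Finset.mem_filter, Finset.mem_product] at hp
    rw [Finset.mem_filter, Finset.mem_image]
    refine ⟨hp.1.1, p.2, hp.1.2, ?_⟩
    rw [hp.2]
    group
  · intro p hp q hq hpq
    rw [Finset.mem_filter] at hp hq
    have h1 := hp.2
    have h2 := hq.2
    rw [h1, hpq] at h2
    have h3 : p.2⁻¹ = q.2⁻¹ := mul_left_cancel h2
    exact Prod.ext hpq (inv_injective h3)
  · intro x hx
    rw [Finset.mem_filter, Finset.mem_image] at hx
    obtain ⟨hx1, y, hy, hyx⟩ := hx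
    refine ⟨(x, y), ?_, rfl⟩
    rw [Finset.mem_filter, Finset.mem_product]
    refine ⟨⟨hx1, hy⟩, ?_⟩
    simp only
    rw [hyx]
    group

lemma count_sum_D {m : ℕ} (A : Fin m → Finset G)
    (hdisj : ∀ i j, i ≠ j → Disjoint (A i) (A j)) (i : Fin m) (g : G) :
    (∑ j ∈ Finset.univ.erase i, D (A i) (A j)).count g =
      rep (A i) (((Finset.univ.erase i).biUnion A).image fun y => y⁻¹) g := by
  classical
  rw [Multiset.count_sum']
  simp_rw [count_D]
  unfold rep
  rw [← Finset.card_biUnion]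
  · congr 1
    ext x
    simp only [Finset.mem_biUnion, Finset.mem_filter, Finset.mem_image, Finset.mem_erase,
      Finset.mem_univ, and_true]
    constructor
    · rintro ⟨j, hj, hx, y, hy, hyx⟩
      exact ⟨hx, y, ⟨j, hj, hy⟩, hyx⟩
    · rintro ⟨hx, y, ⟨j, hj, hy⟩, hyx⟩
      exact ⟨j, hj, hx, y, hy, hyx⟩
  · intro j _ l _ hjl
    rw [Function.onFun, Finset.disjoint_left]
    intro x hx hx'
    rw [Finset.mem_filter, Finset.mem_image] at hx hx'
    obtain ⟨-, y, hy, hyx⟩ := hx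
    obtain ⟨-, y', hy', hyx'⟩ := hx'
    have : y = y' := inv_injective (hyx.trans hyx'.symm)
    rw [← this] at hy'
    exact (Finset.disjoint_left.mp (hdisj j l hjl) hy) hy'

/-- There is no `(n,m,k,1)`-SEDF with `m ≥ 3` and `k ≥ 2` in any finite group, abelian or not. -/
theorem result :
    ∀ (G : Type*) [Group G] [Fintype G] [DecidableEq G] (n m k : ℕ) (A : Fin m → Finset G),
      IsSEDF n m k 1 A → ¬ (3 ≤ m ∧ 2 ≤ k) := by
  rintro G _ _ _ n m k A ⟨-, -, -, hk, hdisj, hrep⟩ ⟨hm, hk2⟩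
  have hG : 2 ≤ Fintype.card G := by
    calc 2 ≤ k := hk2
      _ = (A ⟨0, by omega⟩).card := (hk _).symm
      _ ≤ Fintype.card G := Finset.card_le_univ _
  have := core A hm hG hdisj (fun i g hg => by rw [← count_sum_D A hdisj]; exact hrep i g hg)
    ⟨0, by omega⟩
  rw [hk] at this
  omega

end Pool.Agent.Results.MP_2fa8e1_co.NoSEDF
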